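import Pool.Agent.Q111.GE.LAW
import Pool.Agent.Q120.GM.Exists
import Pool.Agent.Q120.GM.Indep
import Pool.Agent.Q112.LE.Expo

/-!
# Project RZ: the information cost of a zero to the right of the critical line

`A` is ANY random set of integers (a random system of generalized primes), `D_k` the relative entropy (nats) of the law
of `A ∩ [3, 2 ^ (k + 1))` with respect to Cramér's model (`relEntropy μ A (low (k + 1))`, see `Q120.ET.Law`, `Q120.GE.Stm`),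
`zetaA S s = ∏_{n ∈ S} (1 - n ^ (-s))⁻¹` its zeta function. Results of the project, assembled from the jobs below:
if `D_k ≤ 2 ^ ((δ + o(1)) k)`, `0 ≤ δ < 1`, then almost surely `(s - 1) zetaA A s` has an analytic continuation WITHOUT
ZEROS to `Re s > (1 + δ) / 2` (the Riemann hypothesis for `δ = 0`), and `π_A(x) = li(x) + O(x ^ ((1 + δ) / 2 + ε))`; and
every finite set `R` of complex numbers `1/2 < Re ρ < 1` closed under conjugation is the exact set of zeros in `Re s > 1/2`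
of `(s - 1) zetaA A s` for a random set `A` with `D_k ≤ C 2 ^ ((2 β - 1) k)`, `β = max Re ρ`. So a zero with real part
`β > 1/2` costs exactly `x ^ (2 β - 1 + o(1))` nats of information up to `x`.

Each job is a definition `J_… : Prop`; a theorem `t_… : J_…` is to be proved. The proofs are complete in the docstrings.
Tools: `GM.Basic` (`IsModel`, `indep_real`, `F_all`, `F_none`), `GM.Indep` (`indep_many`, `bc` = Borel-Cantelli),
`Q112.LE.Expo` (`Mutual`, `num`, `tail_up`, `tail_down`), `Q111.GE.LAW` (`t_LAW`, `t_ENT`), Mathlib `LSeries`, `mellin`.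
-/

set_option autoImplicit false

namespace Pool.Agent.Q120.RZ

open Finset MeasureTheory Filter Pool.Agent.Q120.ET Pool.Agent.Q120.GM Pool.Agent.Q120.GE
open scoped Topology

open Classical in
/-- The number of elements of `S` in `I`. -/
noncomputable def num' (S : Set ℕ) (I : Finset ℕ) : ℕ := (I.filter (fun n => n ∈ S)).card

/-- The counting function. -/
noncomputable def cnt (S : Set ℕ) (x : ℕ) : ℕ := num' S (Icc 3 x)

/-- The expected value of the counting function; `exs pc` is `li` up to a bounded error. -/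
noncomputable def exs (p : ℕ → ℝ) (x : ℕ) : ℝ := ∑ n ∈ Icc 3 x, p n

/-- The deviation in a dyadic block. -/
noncomputable def bdev (S : Set ℕ) (p : ℕ → ℝ) (k x : ℕ) : ℝ := |(num' S (Icc (2 ^ k) x) : ℝ) - ∑ n ∈ Icc (2 ^ k) x, p n|

/-! ## Part A: deviations -/

/-- **Job TAIL.** Deviations of the number of elements.
Proof. `num' (A ω) I = num I G` of `Q112.LE.Expo` with `G n = {ω | n ∈ A ω}`, `Mutual` by `indep_many`; let
`M = ∑ n ∈ I, p n ≤ V` (`0 ≤ p`). If `t ≤ M`: `κ = t / M ≤ 1`, `tail_up` with `l = κ / 2` and `e^l - 1 ≤ l + l ^ 2` gives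
`exp (-κ ^ 2 M / 4) = exp (-t ^ 2 / (4 M))`, `tail_down` with `l = κ` gives `exp (-κ ^ 2 M / 2)`. If `t > M` the lower
deviation is impossible (`num' ≥ 0`, except `t = M`), and `tail_up` with `l = 1` gives `exp ((e - 1) M - (M + t))`, at most
`exp (-(t - (e - 2) M)) ≤ exp (-t / 4)` as `e < 2.75`. All are at most `exp (-t ^ 2 / (4 (V + t)))`. -/
def J_TAIL : Prop := ∀ (Ω : Type) [MeasurableSpace Ω] (μ : Measure Ω) [IsProbabilityMeasure μ] (p : ℕ → ℝ) (A : Ω → Set ℕ),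
  IsModel μ p A → ∀ (I : Finset ℕ) (V t : ℝ), ∑ n ∈ I, p n ≤ V → 0 < t →
    μ.real {ω | t ≤ |(num' (A ω) I : ℝ) - ∑ n ∈ I, p n|} ≤ 2 * Real.exp (-(t ^ 2 / (4 * (V + t))))

/-- **Job BLK** (uses TAIL). All deviations in a block.
Proof. For `k ≥ 3` and `n ≥ 2 ^ k` `p n ≤ 2 / (k log 2) ≤ 1`, so `∑_{2 ^ k ≤ n ≤ x} p n ≤ 2 ^ k` for `x < 2 ^ (k + 1)`. TAIL with
`V = 2 ^ k` and `t = 2 ^ (θ k) ≤ 2 ^ k`: each `x` contributes at most `2 exp (-2 ^ ((2 θ - 1) k) / 8)`; union over the `2 ^ k`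
values of `x`, and `2 ^ (k + 1) exp (-y / 16) ≤ 1` for `y = 2 ^ ((2 θ - 1) k)` and large `k` (`K₀` depends on `θ`). -/
def J_BLK : Prop := J_TAIL → ∀ θ : ℝ, 1 / 2 < θ → θ ≤ 1 → ∃ K₀ : ℕ, ∀ k : ℕ, K₀ ≤ k → ∀ (Ω : Type) [MeasurableSpace Ω]
  (μ : Measure Ω) [IsProbabilityMeasure μ] (p : ℕ → ℝ) (A : Ω → Set ℕ), IsModel μ p A → (∀ n : ℕ, 3 ≤ n → p n ≤ 2 / Real.log n) →
    μ.real {ω | ∃ x : ℕ, 2 ^ k ≤ x ∧ x < 2 ^ (k + 1) ∧ (2 : ℝ) ^ (θ * k) ≤ bdev (A ω) p k x} ≤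
      Real.exp (-((2 : ℝ) ^ ((2 * θ - 1) * k) / 16))

/-- **Job SUMB.** From the blocks to the counting function (deterministic).
Proof. For `x` in the block `k ≥ K`: `cnt S x - exs p x` is the sum of the part `n < 2 ^ K` (at most `2 ^ K` in absolute value),
of the complete blocks `K ≤ j < k` (`x = 2 ^ (j + 1) - 1`, each at most `2 ^ (θ j)`) and of the last one; a geometric sum. -/
def J_SUMB : Prop := ∀ (S : Set ℕ) (p : ℕ → ℝ) (θ : ℝ), 0 < θ → (∀ n, 0 ≤ p n ∧ p n ≤ 1) →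
  (∀ᶠ k : ℕ in atTop, ∀ x : ℕ, 2 ^ k ≤ x → x < 2 ^ (k + 1) → bdev S p k x ≤ (2 : ℝ) ^ (θ * k)) →
    ∃ C : ℝ, ∀ x : ℕ, 1 ≤ x → |(cnt S x : ℝ) - exs p x| ≤ C * (x : ℝ) ^ θ

/-- **Job ASM** (uses TAIL, BLK, SUMB). Independent models.
Proof. `0 ≤ p n ≤ 1` by `p_nonneg`, `p_le_one`. For `θ = 1/2 + 1/(j + 2)` the bound of BLK is summable over `k`; Borel-Cantelli
(`bc`) and SUMB; then all `j` at once (`ae_all_iff`), `ε ≥ 1/(j + 2)` for some `j`, `x ^ a ≤ x ^ b` for `a ≤ b`, `x ≥ 1`. -/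
def J_ASM : Prop := J_TAIL → J_BLK → J_SUMB → ∀ (Ω : Type) [MeasurableSpace Ω] (μ : Measure Ω) [IsProbabilityMeasure μ]
  (p : ℕ → ℝ) (A : Ω → Set ℕ), IsModel μ p A → (∀ n : ℕ, 3 ≤ n → p n ≤ 2 / Real.log n) →
    ∀ᵐ ω ∂μ, ∀ ε : ℝ, 0 < ε → ∃ C : ℝ, ∀ x : ℕ, 1 ≤ x → |(cnt (A ω) x : ℝ) - exs p x| ≤ C * (x : ℝ) ^ (1 / 2 + ε)

/-- **Job ACL** (uses TAIL, BLK, SUMB). All random sets with bounded relative entropy.
Proof. Let `(1 + δ) / 2 < θ < 1` and let `F T` say that some `x`, `2 ^ k ≤ x < 2 ^ (k + 1)`, has `2 ^ (θ k) ≤ bdev T pc k x`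
(`T : Finset ℕ`). For `k ≥ 2` `F (tr A (low (k + 1)) ω)` is the event of BLK (`Icc (2 ^ k) x ⊆ low (k + 1)`), so by BLK (with
`pc n = 1 / log n ≤ 2 / log n`) it has probability at most `exp (-u)`, `u = 2 ^ ((2 θ - 1) k) / 16`, in Cramér's model, and
by `Pool.Agent.Q111.GE.t_ENT` (with `t_LAW`) at most `(1 + D_k) / u` for `A`. With `ε < 2 θ - 1 - δ` and `D_k ≤ 2 ^ ((δ + ε) k)`
this is summable. `bc`, SUMB, and all `θ = (1 + δ) / 2 + 1 / (j + j₀)` at once. -/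
def J_ACL : Prop := J_TAIL → J_BLK → J_SUMB → ∀ (Ω : Type) [MeasurableSpace Ω] (μ : Measure Ω) [IsProbabilityMeasure μ]
  (A : Ω → Set ℕ), IsRandomSet A → ∀ δ : ℝ, 0 ≤ δ → δ < 1 →
    (∀ ε : ℝ, 0 < ε → ∀ᶠ k : ℕ in atTop, relEntropy μ A (low (k + 1)) ≤ (2 : ℝ) ^ ((δ + ε) * k)) →
      ∀ᵐ ω ∂μ, ∀ ε : ℝ, 0 < ε → ∃ C : ℝ, ∀ x : ℕ, 1 ≤ x →
        |(cnt (A ω) x : ℝ) - exs pc x| ≤ C * (x : ℝ) ^ ((1 + δ) / 2 + ε)

/-! ## Part B: analytic continuation -/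

/-- **Job AN.** Dirichlet series with small partial sums.
Proof. Let `f t = ∑ n ∈ Icc 1 ⌊t⌋₊, a n`, zero for `t < 1`, and `G s = s * mellin f (-s)`. For `Re s > 1`
`LSeries_eq_mul_integral` (with exponent `1`, `LSeriesSummable` because `‖a n‖ ≤ 1`) gives
`LSeries a s = s * ∫ t in Ioi 1, f t * t ^ (-(s + 1))`, which is `G s` (`f = 0` on `(0, 1)`). For `Re s > θ` choose `ε` with
`θ + ε < Re s`: `f = O (t ^ (θ + ε))` at infinity and `f = 0` near `0`, so `mellin f` is differentiable at `-s` by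
`mellin_differentiableAt_of_isBigO_rpow` (locally integrable: bounded measurable on compact sets). -/
def J_AN : Prop := ∀ (a : ℕ → ℂ) (θ : ℝ), 0 ≤ θ → θ < 1 → (∀ n, ‖a n‖ ≤ 1) →
  (∀ ε : ℝ, 0 < ε → ∃ C : ℝ, ∀ x : ℕ, 1 ≤ x → ‖∑ n ∈ Icc 1 x, a n‖ ≤ C * (x : ℝ) ^ (θ + ε)) →
    ∃ G : ℂ → ℂ, DifferentiableOn ℂ G {s | θ < s.re} ∧ ∀ s : ℂ, 1 < s.re → G s = LSeries a s

open Classical in
/-- The indicator function. -/
noncomputable def ind (S : Set ℕ) (n : ℕ) : ℂ := if n ∈ S ∧ 3 ≤ n then 1 else 0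

open Classical in
/-- The logarithm of the zeta function. -/
noncomputable def LA (S : Set ℕ) (s : ℂ) : ℂ := ∑' n : ℕ, if n ∈ S ∧ 3 ≤ n then -Complex.log (1 - (n : ℂ) ^ (-s)) else 0

/-- The zeta function of `S`, for `Re s > 1`. -/
noncomputable def zetaA (S : Set ℕ) (s : ℂ) : ℂ := Complex.exp (LA S s)

/-- **Job LG.** The prime powers.
Proof. `H s = ∑' n, (-log (1 - n ^ (-s)) - n ^ (-s))` over the `n ∈ S`, `n ≥ 3`. On `Re s > σ > 1/2` the terms are analytic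
(`‖n ^ (-s)‖ ≤ 3 ^ (-1/2) < 1`) and at most `2 ‖n ^ (-s)‖ ^ 2 ≤ 2 n ^ (-2 σ)` times a constant in norm
(`Complex.norm_log_one_add_sub_self_le` or similar), summable: `differentiableOn_tsum_of_summable_norm`. For `Re s > 1` split
the sum (both parts are summable). -/
def J_LG : Prop := ∀ S : Set ℕ, ∃ H : ℂ → ℂ, DifferentiableOn ℂ H {s | 1 / 2 < s.re} ∧
  ∀ s : ℂ, 1 < s.re → LA S s = LSeries (ind S) s + H s

/-- **Job PR.** Primitives on a half plane.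
Proof. Mathlib has primitives on discs (`DifferentiableOn.isExactOn_ball`, file `Mathlib.Analysis.Complex.HasPrimitives`). The half
plane is the increasing union of the discs of centre `θ + n` and radius `n`, `n ≥ 1`; normalize the primitives to vanish at
`θ + 1`; they agree on the smaller discs (zero derivative on a convex set), and define one function. -/
def J_PR : Prop := ∀ (θ : ℝ) (f : ℂ → ℂ), DifferentiableOn ℂ f {s | θ < s.re} → ∃ F : ℂ → ℂ, ∀ s : ℂ, θ < s.re → HasDerivAt F (f s) s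

open Classical in
/-- **Job MP** (uses PR). The main term.
Proof. Let `P s` be the series, `Re s > 1`. `LSeries_hasDerivAt`: `P' s = -∑_{n ≥ m} n ^ (-s) = -(ζ s - ∑_{1 ≤ n < m} n ^ (-s))`
(`log n * (1 / log n) = 1`, `zeta_eq_tsum_one_div_nat_cpow`). The function `ζ s - 1 / (s - 1)` extends to an entire function
(removable singularity at `1`, `riemannZeta_residue_one`; or `completedRiemannZeta₀`). So the derivative of
`P s + log (s - 1)` extends to an analytic function on `Re s > 0`; let `F` be a primitive (PR). `P s + log (s - 1) - F s` is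
constant on the convex set `Re s > 1`. -/
def J_MP : Prop := J_PR → ∀ m : ℕ, 3 ≤ m → ∃ Q : ℂ → ℂ, DifferentiableOn ℂ Q {s | 0 < s.re} ∧
  ∀ s : ℂ, 1 < s.re → LSeries (fun n : ℕ => if m ≤ n then ((1 / Real.log n : ℝ) : ℂ) else 0) s = -Complex.log (s - 1) + Q s

/-- **Job CT** (uses AN, LG, PR, MP). Continuation without zeros.
Proof. AN with `a n = ind S n - pc n` (of norm at most `1`; the partial sums are `cnt S x - exs pc x`), MP with `m = 3`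
(`pc n = 1 / log n` for `n ≥ 3`, else `0`): for `Re s > 1` `LA S s = G s - log (s - 1) + Q s + H s`;
`Z s = exp (G s + Q s + H s)`, and `exp (log (s - 1)) = s - 1`. -/
def J_CT : Prop := J_AN → J_LG → J_PR → J_MP → ∀ (S : Set ℕ) (θ : ℝ), 1 / 2 ≤ θ → θ < 1 →
  (∀ ε : ℝ, 0 < ε → ∃ C : ℝ, ∀ x : ℕ, 1 ≤ x → |(cnt S x : ℝ) - exs pc x| ≤ C * (x : ℝ) ^ (θ + ε)) →
    ∃ Z : ℂ → ℂ, DifferentiableOn ℂ Z {s | θ < s.re} ∧ (∀ s : ℂ, θ < s.re → Z s ≠ 0) ∧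
      ∀ s : ℂ, 1 < s.re → Z s = (s - 1) * zetaA S s

/-! ## Part C: prescribed zeros -/

/-- The tilt: `∑ ρ ∈ R, n ^ (ρ - 1)` for `n ≥ m`. -/
noncomputable def tilt (R : Finset ℂ) (m n : ℕ) : ℝ := if m ≤ n then (∑ ρ ∈ R, (n : ℂ) ^ (ρ - 1)).re else 0

/-- The probabilities of the model with zeros at `R`. -/
noncomputable def pz (R : Finset ℂ) (m n : ℕ) : ℝ := (1 - tilt R m n) * pc n

/-- **Job ZR** (uses AN, LG, PR, MP). The zeros.
Proof. `R` is closed under conjugation, so `∑ ρ ∈ R, (n : ℂ) ^ (ρ - 1)` is real. For `Re s > 1`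
`LSeries (pz R m) s = LSeries pc s - ∑ ρ ∈ R, LSeries (1_{n ≥ m} / log n) (s + 1 - ρ)`
(`n ^ (ρ - 1) n ^ (-s) = n ^ (-(s + 1 - ρ))`, `Re (s + 1 - ρ) > 1`), which by MP is
`-log (s - 1) + Q₃ s + ∑ ρ ∈ R, (log (s - ρ) - Q_m (s + 1 - ρ))`. AN with `a n = ind S n - pz R m n` and `θ = 1/2`, and LG:
`LA S s = G s + H s + LSeries (pz R m) s`. So `(s - 1) zetaA S s = Z s * ∏ ρ ∈ R, (s - ρ)` with
`Z s = exp (G s + H s + Q₃ s - ∑ ρ ∈ R, Q_m (s + 1 - ρ))`, analytic on `Re s > 1/2` as `Re (s + 1 - ρ) > 0` there. -/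
def J_ZR : Prop := J_AN → J_LG → J_PR → J_MP → ∀ (R : Finset ℂ) (m : ℕ) (S : Set ℕ), 3 ≤ m →
  (∀ ρ ∈ R, 1 / 2 < ρ.re ∧ ρ.re < 1 ∧ (starRingEnd ℂ) ρ ∈ R) → (∀ n, 0 ≤ pz R m n ∧ pz R m n ≤ 1) →
  (∀ ε : ℝ, 0 < ε → ∃ C : ℝ, ∀ x : ℕ, 1 ≤ x → |(cnt S x : ℝ) - exs (pz R m) x| ≤ C * (x : ℝ) ^ (1 / 2 + ε)) →
    ∃ Z : ℂ → ℂ, DifferentiableOn ℂ Z {s | 1 / 2 < s.re} ∧ (∀ s : ℂ, 1 / 2 < s.re → Z s ≠ 0) ∧
      ∀ s : ℂ, 1 < s.re → (s - 1) * zetaA S s = Z s * ∏ ρ ∈ R, (s - ρ)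

/-- **Job KL.** The relative entropy of a model with independent elements.
Proof. By `t_LAW` `lawOn μ A B T = ∏_{n ∈ T} p n ∏_{n ∈ B \ T} (1 - p n)`. Let `c = ∑ T ⊆ B, lawOn ^ 2 / cramerOn`; with `q n = pc n`
it is the product over `n ∈ B` of `p ^ 2 / q + (1 - p) ^ 2 / (1 - q) = 1 + (p - q) ^ 2 / (q (1 - q))` (`Finset.prod_add` or
induction on `B`). `log x ≤ x / c - 1 + log c` for `x > 0`, `c > 0` gives `relEntropy ≤ log c` (sum of the laws is `1`), and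
`log c ≤ ∑ (p - q) ^ 2 / (q (1 - q)) = ∑ d ^ 2 q / (1 - q)`, where `p = (1 - d) q`; `1 / (1 - q) ≤ 12` because
`log 3 ≥ 1.098`. -/
def J_KL : Prop := ∀ (Ω : Type) [MeasurableSpace Ω] (μ : Measure Ω) [IsProbabilityMeasure μ] (A : Ω → Set ℕ) (d : ℕ → ℝ),
  IsModel μ (fun n => (1 - d n) * pc n) A → ∀ B : Finset ℕ, (∀ n ∈ B, 3 ≤ n) →
    relEntropy μ A B ≤ ∑ n ∈ B, 12 * (d n ^ 2 * pc n)

/-- **Job TI.** The size of the tilt.
Proof. `‖n ^ (ρ - 1)‖ = n ^ (Re ρ - 1) ≤ n ^ (β - 1)`. For the sum: `∑_{n < 2 ^ K} n ^ (2 β - 2) ≤ C 2 ^ ((2 β - 1) K)` (comparison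
with the integral or dyadic blocks; `2 β - 1 > 0`), and `pc n ≤ 1`. -/
def J_TI : Prop := ∀ (R : Finset ℂ) (β : ℝ), 1 / 2 < β → β < 1 → (∀ ρ ∈ R, ρ.re ≤ β) →
  (∀ᶠ m : ℕ in atTop, ∀ n : ℕ, |tilt R m n| ≤ 1 / 2) ∧
    ∃ C : ℝ, ∀ m K : ℕ, ∑ n ∈ low K, 12 * (tilt R m n ^ 2 * pc n) ≤ C * (2 : ℝ) ^ ((2 * β - 1) * K)

end Pool.Agent.Q120.RZ
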