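import Pool.Agent.Q120.RZ.Stm

/-!
# Project RZ: the assembly
-/

set_option autoImplicit false

namespace Pool.Agent.Q120.RZ

open Finset MeasureTheory Filter Pool.Agent.Q120.ET Pool.Agent.Q120.GM Pool.Agent.Q120.GE
open scoped Topology

/-- `(s - 1) * zetaA S s` has an analytic continuation to `Re s > σ`; its zeros there are the elements of `R`, all simple. -/
def ZerosAre (S : Set ℕ) (σ : ℝ) (R : Finset ℂ) : Prop :=
  ∃ Z : ℂ → ℂ, DifferentiableOn ℂ Z {s | σ < s.re} ∧ (∀ s : ℂ, σ < s.re → Z s ≠ 0) ∧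
    ∀ s : ℂ, 1 < s.re → (s - 1) * zetaA S s = Z s * ∏ ρ ∈ R, (s - ρ)

/-- `(s - 1) * zetaA S s` has an analytic continuation to a half plane containing `ρ`, and it vanishes at `ρ`. -/
def HasZero (S : Set ℕ) (ρ : ℂ) : Prop :=
  ∃ (f : ℂ → ℂ) (r : ℝ), r < ρ.re ∧ DifferentiableOn ℂ f {s | r < s.re} ∧
    (∀ s : ℂ, 1 < s.re → f s = (s - 1) * zetaA S s) ∧ f ρ = 0

/-- The prime number theorem with exponent `θ`. -/
def PNT (S : Set ℕ) (θ : ℝ) : Prop :=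
  ∀ ε : ℝ, 0 < ε → ∃ C : ℝ, ∀ x : ℕ, 1 ≤ x → |(cnt S x : ℝ) - exs pc x| ≤ C * (x : ℝ) ^ (θ + ε)

/-- The relative entropy up to `2 ^ (k + 1)` is at most `2 ^ ((δ + o(1)) k)`. -/
def Info {Ω : Type} [MeasurableSpace Ω] (μ : Measure Ω) (A : Ω → Set ℕ) (δ : ℝ) : Prop :=
  ∀ ε : ℝ, 0 < ε → ∀ᶠ k : ℕ in atTop, relEntropy μ A (low (k + 1)) ≤ (2 : ℝ) ^ ((δ + ε) * k)

/-- Every random set with relative entropy at most `2 ^ ((δ + o(1)) k)` almost surely has the property `P`. -/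
def All (δ : ℝ) (P : Set ℕ → Prop) : Prop :=
  ∀ (Ω : Type) [MeasurableSpace Ω] (μ : Measure Ω) [IsProbabilityMeasure μ] (A : Ω → Set ℕ), IsRandomSet A →
    Info μ A δ → ∀ᵐ ω ∂μ, P (A ω)

/-- Some random set with relative entropy at most `C * 2 ^ (δ k)` almost surely has the property `P`. -/
def Some' (δ : ℝ) (P : Set ℕ → Prop) : Prop :=
  ∃ (Ω : Type) (_ : MeasurableSpace Ω) (μ : Measure Ω) (_ : IsProbabilityMeasure μ) (A : Ω → Set ℕ), IsRandomSet A ∧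
    (∃ C : ℝ, ∀ k : ℕ, relEntropy μ A (low (k + 1)) ≤ C * (2 : ℝ) ^ (δ * k)) ∧ ∀ᵐ ω ∂μ, P (A ω)

/-- The jobs. -/
structure Jobs : Prop where
  tail : J_TAIL
  blk : J_BLK
  sumb : J_SUMB
  asm : J_ASM
  acl : J_ACL
  an : J_AN
  lg : J_LG
  pr : J_PR
  mp : J_MP
  ct : J_CT
  zr : J_ZR
  kl : J_KL
  ti : J_TI

theorem isOpen_half (σ : ℝ) : IsOpen {s : ℂ | σ < s.re} := isOpen_lt continuous_const Complex.continuous_re

theorem uniq {f g : ℂ → ℂ} {r σ : ℝ} (hf : DifferentiableOn ℂ f {s | r < s.re}) (hg : DifferentiableOn ℂ g {s | σ < s.re})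
    (h : ∀ s : ℂ, 1 < s.re → f s = g s) {s : ℂ} (h1 : r < s.re) (h2 : σ < s.re) : f s = g s := by
  obtain ⟨m, hm⟩ : ∃ m : ℝ, m = max r σ := ⟨_, rfl⟩
  have hmr : r ≤ m := hm ▸ le_max_left _ _
  have hmσ : σ ≤ m := hm ▸ le_max_right _ _
  have hopen : IsOpen {s : ℂ | m < s.re} := isOpen_half m
  have hfa : AnalyticOnNhd ℂ f {s : ℂ | m < s.re} :=
    (hf.mono (fun s hs => lt_of_le_of_lt hmr hs)).analyticOnNhd hopen
  have hga : AnalyticOnNhd ℂ g {s : ℂ | m < s.re} :=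
    (hg.mono (fun s hs => lt_of_le_of_lt hmσ hs)).analyticOnNhd hopen
  have hpre : IsPreconnected {s : ℂ | m < s.re} := (convex_halfSpace_re_gt m).isPreconnected
  obtain ⟨z, hz⟩ : ∃ z : ℂ, z = ((max m 1 + 1 : ℝ) : ℂ) := ⟨_, rfl⟩
  have hzre : z.re = max m 1 + 1 := by rw [hz]; exact Complex.ofReal_re _
  have hzm : z ∈ {s : ℂ | m < s.re} := by
    have := le_max_left m 1
    simp only [Set.mem_ofPred_eq, hzre]
    linarith
  have hz1 : z ∈ {s : ℂ | 1 < s.re} := by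
    have := le_max_right m 1
    simp only [Set.mem_ofPred_eq, hzre]
    linarith
  have hev : f =ᶠ[𝓝 z] g := by
    filter_upwards [(isOpen_half 1).mem_nhds hz1] with s hs
    exact h s hs
  have hs : s ∈ {s : ℂ | m < s.re} := by
    simp only [Set.mem_ofPred_eq, hm]
    exact max_lt h1 h2
  exact hfa.eqOn_of_preconnected_of_eventuallyEq hga hpre hzm hev hs

theorem hasZero_iff {S : Set ℕ} {σ : ℝ} {R : Finset ℂ} (h : ZerosAre S σ R) {ρ : ℂ} (hρ : σ < ρ.re) :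
    HasZero S ρ ↔ ρ ∈ R := by
  obtain ⟨Z, hZ, hZ0, hZ1⟩ := h
  have hg : DifferentiableOn ℂ (fun s => Z s * ∏ ρ ∈ R, (s - ρ)) {s | σ < s.re} := by
    refine hZ.mul ?_
    refine DifferentiableOn.fun_finset_prod (fun ρ _ => ?_)
    exact (differentiable_id.sub_const ρ).differentiableOn
  constructor
  · rintro ⟨f, r, hr, hf, hf1, hf0⟩
    have h1 : f ρ = Z ρ * ∏ ρ' ∈ R, (ρ - ρ') :=
      uniq hf hg (fun s hs => by rw [hf1 s hs, hZ1 s hs]) hr hρ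
    rw [hf0] at h1
    rcases mul_eq_zero.1 h1.symm with h2 | h2
    · exact absurd h2 (hZ0 ρ hρ)
    · obtain ⟨a, ha, ha2⟩ := prod_eq_zero_iff.1 h2
      rw [sub_eq_zero.1 ha2]
      exact ha
  · intro hmem
    refine ⟨fun s => Z s * ∏ ρ ∈ R, (s - ρ), σ, hρ, hg, fun s hs => (hZ1 s hs).symm, ?_⟩
    show Z ρ * ∏ ρ' ∈ R, (ρ - ρ') = 0
    rw [prod_eq_zero hmem (sub_self ρ), mul_zero]

theorem PNT.mono {S : Set ℕ} {θ θ' : ℝ} (h : PNT S θ) (hθ : θ ≤ θ') : PNT S θ' := by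
  intro ε hε
  obtain ⟨C, hC⟩ := h ε hε
  have hC0 : 0 ≤ C := by
    have := (abs_nonneg _).trans (hC 1 le_rfl)
    simpa using this
  refine ⟨C, fun x hx => (hC x hx).trans ?_⟩
  have hx1 : (1 : ℝ) ≤ x := by exact_mod_cast hx
  exact mul_le_mul_of_nonneg_left (Real.rpow_le_rpow_of_exponent_le hx1 (by linarith)) hC0

theorem info_of_le {Ω : Type} [MeasurableSpace Ω] {μ : Measure Ω} {A : Ω → Set ℕ} {δ C : ℝ}
    (h : ∀ k : ℕ, relEntropy μ A (low (k + 1)) ≤ C * (2 : ℝ) ^ (δ * k)) : Info μ A δ := by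
  intro ε hε
  have h1 : Tendsto (fun k : ℕ => (2 : ℝ) ^ (ε * k)) atTop atTop := by
    have h2 : Tendsto (fun k : ℕ => ((2 : ℝ) ^ ε) ^ k) atTop atTop :=
      tendsto_pow_atTop_atTop_of_one_lt (Real.one_lt_rpow (by norm_num) hε)
    refine h2.congr (fun k => ?_)
    rw [Real.rpow_mul (by norm_num), Real.rpow_natCast]
  filter_upwards [h1.eventually_ge_atTop C] with k hk
  refine (h k).trans ?_
  rw [add_mul, Real.rpow_add (by norm_num), mul_comm]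
  exact mul_le_mul_of_nonneg_left hk (Real.rpow_nonneg (by norm_num) _)

section

variable (J : Jobs)

include J

/-- Every random set with little information satisfies the prime number theorem with a power saving. -/
theorem all_pnt {δ θ : ℝ} (h0 : 0 ≤ δ) (h1 : δ < 1) (hθ : (1 + δ) / 2 ≤ θ) : All δ (fun S => PNT S θ) := by
  intro Ω _ μ _ A hA hI
  have h2 := J.acl J.tail J.blk J.sumb Ω μ A hA δ h0 h1 hI
  filter_upwards [h2] with ω hω
  exact PNT.mono hω hθ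

theorem free_of_pnt {S : Set ℕ} {θ : ℝ} (h0 : 1 / 2 ≤ θ) (h1 : θ < 1) (h : PNT S θ) : ZerosAre S θ ∅ := by
  obtain ⟨Z, hZ, hZ0, hZ1⟩ := J.ct J.an J.lg J.pr J.mp S θ h0 h1 h
  exact ⟨Z, hZ, hZ0, fun s hs => by rw [prod_empty, mul_one, hZ1 s hs]⟩

theorem all_free {δ θ : ℝ} (h0 : 0 ≤ δ) (h1 : δ < 1) (hθ : (1 + δ) / 2 ≤ θ) (hθ1 : θ < 1) :
    All δ (fun S => ZerosAre S θ ∅) := by
  intro Ω _ μ _ A hA hI
  filter_upwards [all_pnt J h0 h1 hθ Ω μ A hA hI] with ω hω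
  exact free_of_pnt J (by linarith) hθ1 hω

/-- Prescribed zeros. -/
theorem some_zeros {R : Finset ℂ} {β : ℝ} (h0 : 1 / 2 < β) (h1 : β < 1)
    (hR : ∀ ρ ∈ R, 1 / 2 < ρ.re ∧ ρ.re ≤ β ∧ (starRingEnd ℂ) ρ ∈ R) :
    Some' (2 * β - 1) (fun S => ZerosAre S (1 / 2) R) := by
  obtain ⟨hm, C, hC⟩ := J.ti R β h0 h1 (fun ρ hρ => (hR ρ hρ).2.1)
  obtain ⟨m, hm1, hm2⟩ := (hm.and (eventually_ge_atTop 8)).exists
  have hlog8 : (2 : ℝ) ≤ Real.log 8 := by
    have h2 : Real.log 8 = 3 * Real.log 2 := by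
      rw [show (8 : ℝ) = 2 ^ 3 by norm_num, Real.log_pow]; norm_num
    have := Real.log_two_gt_d9
    rw [h2]; linarith
  have hlog3 : (1 : ℝ) ≤ Real.log 3 := by
    rw [Real.le_log_iff_exp_le (by norm_num)]
    have := Real.exp_one_lt_d9
    linarith
  have hpc0 : ∀ n, 0 ≤ pc n := by
    intro n
    unfold pc
    split_ifs with h
    · have : (3 : ℝ) ≤ n := by exact_mod_cast h
      exact div_nonneg zero_le_one (Real.log_nonneg (by linarith))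
    · exact le_rfl
  have hpc1 : ∀ n, pc n ≤ 1 := by
    intro n
    unfold pc
    split_ifs with h
    · have h3 : (3 : ℝ) ≤ n := by exact_mod_cast h
      have h4 : 1 ≤ Real.log n := hlog3.trans (Real.log_le_log (by norm_num) h3)
      rw [div_le_one (by linarith)]
      exact h4
    · exact zero_le_one
  have hpz : ∀ n, 0 ≤ pz R m n ∧ pz R m n ≤ 1 := by
    intro n
    have ht := abs_le.1 (hm1 n)
    unfold pz
    refine ⟨mul_nonneg (by linarith [ht.2]) (hpc0 n), ?_⟩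
    by_cases hn : m ≤ n
    · have hn8 : (8 : ℝ) ≤ n := by exact_mod_cast hm2.trans hn
      have hl : 2 ≤ Real.log n := hlog8.trans (Real.log_le_log (by norm_num) hn8)
      have hp : pc n ≤ 1 / 2 := by
        unfold pc
        rw [if_pos (by omega)]
        exact one_div_le_one_div_of_le (by norm_num) hl
      have h3 : (1 - tilt R m n) * pc n ≤ 2 * (1 / 2) :=
        mul_le_mul (by linarith [ht.1]) hp (hpc0 n) (by norm_num)
      linarith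
    · have h3 : tilt R m n = 0 := by unfold tilt; rw [if_neg hn]
      rw [h3, sub_zero, one_mul]
      exact hpc1 n
  obtain ⟨Ω, hΩ, μ, hμ, A, hA⟩ : ∃ (Ω : Type) (_ : MeasurableSpace Ω) (μ : Measure Ω) (_ : IsProbabilityMeasure μ)
      (A : Ω → Set ℕ), IsModel μ (pz R m) A :=
    ⟨ℕ → Bool, inferInstance, prodMeasure (pz R m), inferInstance, trueSet,
      isModel (pz R m) (fun i => (hpz i).1) (fun i => (hpz i).2)⟩
  refine ⟨Ω, hΩ, μ, hμ, A, hA.meas, ⟨C * (2 : ℝ) ^ (2 * β - 1), fun k => ?_⟩, ?_⟩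
  · have h2 := J.kl Ω μ A (tilt R m) hA (low (k + 1)) (fun n hn => by
      unfold low at hn; exact (mem_Ico.1 hn).1)
    refine (h2.trans (hC m (k + 1))).trans (le_of_eq ?_)
    rw [mul_assoc, ← Real.rpow_add (by norm_num)]
    push_cast
    ring_nf
  · have h2 := J.asm J.tail J.blk J.sumb Ω μ (pz R m) A hA (fun n hn => by
      have hn3 : (3 : ℝ) ≤ n := by exact_mod_cast hn
      have hl : 1 ≤ Real.log n := hlog3.trans (Real.log_le_log (by norm_num) hn3)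
      have ht := abs_le.1 (hm1 n)
      have hp : pc n = 1 / Real.log n := by unfold pc; rw [if_pos hn]
      unfold pz
      rw [hp, mul_one_div]
      exact div_le_div_of_nonneg_right (by linarith [ht.1]) (by linarith))
    filter_upwards [h2] with ω hω
    exact J.zr J.an J.lg J.pr J.mp R m (A ω) (by omega)
      (fun ρ hρ => ⟨(hR ρ hρ).1, lt_of_le_of_lt (hR ρ hρ).2.1 h1, (hR ρ hρ).2.2⟩) hpz hω

theorem some_zeros' {R : Finset ℂ} {β : ℝ} (h0 : 1 / 2 < β) (h1 : β < 1)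
    (hR : ∀ ρ ∈ R, 1 / 2 < ρ.re ∧ ρ.re ≤ β ∧ (starRingEnd ℂ) ρ ∈ R) :
    Some' (2 * β - 1) (fun S => ZerosAre S (1 / 2) R ∧ ∀ ρ : ℂ, 1 / 2 < ρ.re → (HasZero S ρ ↔ ρ ∈ R)) := by
  obtain ⟨Ω, hΩ, μ, hμ, A, hA, hC, h⟩ := some_zeros J h0 h1 hR
  refine ⟨Ω, hΩ, μ, hμ, A, hA, hC, ?_⟩
  filter_upwards [h] with ω hω
  exact ⟨hω, fun ρ hρ => hasZero_iff hω hρ⟩

/-- The cheapest zero. -/
theorem some_zero {δ θ : ℝ} (h1 : δ < 1) (h2 : 1 / 2 ≤ θ) (h3 : θ < (1 + δ) / 2) :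
    Some' δ (fun S => HasZero S (((1 + δ) / 2 : ℝ) : ℂ)) := by
  have hR : ∀ ρ ∈ ({(((1 + δ) / 2 : ℝ) : ℂ)} : Finset ℂ), 1 / 2 < ρ.re ∧ ρ.re ≤ (1 + δ) / 2 ∧
      (starRingEnd ℂ) ρ ∈ ({(((1 + δ) / 2 : ℝ) : ℂ)} : Finset ℂ) := by
    intro ρ hρ
    rw [mem_singleton] at hρ
    subst hρ
    refine ⟨by rw [Complex.ofReal_re]; linarith, by rw [Complex.ofReal_re], ?_⟩
    rw [Complex.conj_ofReal]
    exact mem_singleton_self _
  obtain ⟨Ω, hΩ, μ, hμ, A, hA, ⟨C, hC⟩, h⟩ := some_zeros' J (by linarith) (by linarith) hR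
  refine ⟨Ω, hΩ, μ, hμ, A, hA, ⟨C, fun k => (hC k).trans (le_of_eq ?_)⟩, ?_⟩
  · rw [show 2 * ((1 + δ) / 2) - 1 = δ by ring]
  · filter_upwards [h] with ω hω
    exact (hω.2 _ (by rw [Complex.ofReal_re]; linarith)).2 (mem_singleton_self _)

theorem not_free_of_zero {S : Set ℕ} {θ : ℝ} {ρ : ℂ} (hρ : θ < ρ.re) (h : HasZero S ρ) : ¬ ZerosAre S θ ∅ := by
  intro h2
  exact notMem_empty _ ((hasZero_iff h2 hρ).1 h)

theorem not_all {δ : ℝ} {P Q : Set ℕ → Prop} (h : Some' δ P) (hPQ : ∀ S, P S → ¬ Q S) : ¬ All δ Q := by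
  intro h2
  obtain ⟨Ω, hΩ, μ, hμ, A, hA, ⟨C, hC⟩, h3⟩ := h
  have h4 := h2 Ω μ A hA (info_of_le hC)
  have h5 : ∀ᵐ ω ∂μ, False := by
    filter_upwards [h3, h4] with ω h6 h7
    exact hPQ _ h6 h7
  exact (Filter.eventually_false_iff_eq_bot.1 h5 ▸ (inferInstance : (ae μ).NeBot)).ne rfl

theorem free_iff {δ θ : ℝ} (h0 : 0 ≤ δ) (h1 : δ < 1) (h2 : 1 / 2 ≤ θ) (h3 : θ < 1) :
    (1 + δ) / 2 ≤ θ ↔ All δ (fun S => ZerosAre S θ ∅) := by
  refine ⟨fun h => all_free J h0 h1 h h3, fun h => ?_⟩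
  by_contra hlt
  rw [not_le] at hlt
  refine not_all J (some_zero J h1 h2 hlt) (fun S hS => ?_) h
  exact not_free_of_zero J (by rw [Complex.ofReal_re]; exact hlt) hS

theorem pnt_iff {δ θ : ℝ} (h0 : 0 ≤ δ) (h1 : δ < 1) (h2 : 1 / 2 ≤ θ) (h3 : θ < 1) :
    (1 + δ) / 2 ≤ θ ↔ All δ (fun S => PNT S θ) := by
  refine ⟨fun h => all_pnt J h0 h1 h, fun h => ?_⟩
  by_contra hlt
  rw [not_le] at hlt
  refine not_all J (some_zero J h1 h2 hlt) (fun S hS hP => ?_) h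
  exact not_free_of_zero J (by rw [Complex.ofReal_re]; exact hlt) hS (free_of_pnt J h2 h3 hP)

/-- The lower bound for the information. -/
theorem info_lower {Ω : Type} [MeasurableSpace Ω] {μ : Measure Ω} [IsProbabilityMeasure μ] {A : Ω → Set ℕ}
    (hA : IsRandomSet A) {β δ : ℝ} (h0 : 1 / 2 < β) (h1 : β ≤ 1) (hδ : δ < 2 * β - 1)
    (h : ¬ ∀ᵐ ω ∂μ, ∀ ρ : ℂ, β ≤ ρ.re → ¬ HasZero (A ω) ρ) :
    ∃ᶠ k : ℕ in atTop, (2 : ℝ) ^ (δ * k) < relEntropy μ A (low (k + 1)) := by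
  by_contra hcon
  rw [Filter.not_frequently] at hcon
  apply h
  obtain ⟨d, hd⟩ : ∃ d : ℝ, d = max δ 0 := ⟨_, rfl⟩
  have hd0 : 0 ≤ d := hd ▸ le_max_right _ _
  have hd1 : δ ≤ d := hd ▸ le_max_left _ _
  have hd2 : d < 2 * β - 1 := by rw [hd]; exact max_lt hδ (by linarith)
  have hI : Info μ A d := by
    intro ε hε
    filter_upwards [hcon] with k hk
    rw [not_lt] at hk
    refine hk.trans (Real.rpow_le_rpow_of_exponent_le (by norm_num) ?_)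
    exact mul_le_mul_of_nonneg_right (by linarith) (Nat.cast_nonneg k)
  have h2 := all_free J hd0 (by linarith) le_rfl (by linarith) Ω μ A hA hI
  filter_upwards [h2] with ω hω ρ hρ hz
  exact not_free_of_zero J (by linarith) hz hω

end

end Pool.Agent.Q120.RZ
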